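import Pool.Agent.Lib.MP_a78e1f_lc.R.Iface

/-!
# MEAS: measurability of sets of pairs
-/

set_option autoImplicit false

universe u v w

open Cardinal Filter MeasureTheory

namespace Pool.Agent.Lib.MP_a78e1f_lc.H94

open Pool.Agent.Lib.MP_a78e1f_lc
open Pool.Agent.Lib.MP_6d445e_gt

section

variable {A : Type u} [CompleteBooleanAlgebra A]

theorem meas_mem (a : A) : MeasurableSet {p : Pt A | a ∈ p.1} :=
  measurable_fst (measurable_mem A a)

theorem meas_cyl (hCm : CmStatement) (σ : List Bool) : MeasurableSet (cyl σ : Set (Pt A)) :=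
  measurable_snd (hCm.2.2.2.1 σ)

theorem meas_vx (X : ℕ → A) : Measurable (vx X) := by
  rw [measurable_pi_iff]
  intro n
  refine measurable_to_bool ?_
  have h : (fun g : Ult A => vx X g n) ⁻¹' {true} = {g : Ult A | X n ∈ g} := by
    ext g
    simp [vx]
  rw [h]
  exact measurable_mem A (X n)

theorem meas_Kc (hCm : CmStatement) (ε : List Bool → A) : MeasurableSet (Kc ε) := by
  have hl := hCm.2.2.2.2.1
  have h : Kc ε = ⋂ σ : List Bool, ((cyl σ : Set (Pt A))ᶜ ∪ {p : Pt A | ε σ ∈ p.1}ᶜ) := by
    ext p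
    simp only [Kc, Set.mem_setOf_eq, Set.mem_iInter, Set.mem_union, Set.mem_compl_iff, cyl]
    constructor
    · intro h σ
      by_cases hσ : res p.2 σ.length = σ
      · right
        have := h σ.length
        rwa [hσ] at this
      · exact Or.inl hσ
    · intro h n
      rcases h (res p.2 n) with h1 | h1
      · rw [hl] at h1
        exact absurd rfl h1
      · exact h1
  rw [h]
  exact MeasurableSet.iInter fun σ => ((meas_cyl hCm σ).compl).union (meas_mem (ε σ)).compl

theorem sec_iUnion (E : ℕ → Set (Pt A)) (g : Ult A) :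
    sec (⋃ n, E n) g = ⋃ n, sec (E n) g := by
  ext x
  simp [sec]

theorem nl_iUnion (E : ℕ → Set (Pt A)) (h : ∀ n, nl (E n)) : nl (⋃ n, E n) := by
  have h1 : ∀ᶠ g in ae A, ∀ n, cm (sec (E n) g) = 0 := ae_all h
  filter_upwards [h1] with g hg
  rw [sec_iUnion]
  exact measure_iUnion_null hg

theorem vx_iff (X : ℕ → A) (g : Ult A) (n : ℕ) : vx X g n = true ↔ X n ∈ g := by
  simp [vx]

theorem res_get (x : Cs) (n i : ℕ) (h : i < (res x n).length) : (res x n)[i] = x i := by
  simp [res]

theorem res_eq_list_iff (hCm : CmStatement) (x : Cs) (σ : List Bool) :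
    res x σ.length = σ ↔ ∀ i, ∀ h : i < σ.length, x i = σ[i] := by
  have hl := hCm.2.2.2.2.1
  constructor
  · intro h i hi
    have h1 : i < (res x σ.length).length := by rw [hl]; exact hi
    have h3 := res_get x σ.length i h1
    rw [← h3]
    simp only [h]
  · intro h
    apply List.ext_getElem
    · rw [hl]
    · intro i h1 h2
      rw [res_get]
      exact h i h2

theorem mem_pre (hCm : CmStatement) (X : ℕ → A) (σ : List Bool) (g : Ult A) :
    pre X σ ∈ g ↔ res (vx X g) σ.length = σ := by
  classical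
  rw [res_eq_list_iff hCm]
  have h : pre X σ = ⨅ n ∈ Finset.range σ.length,
      (if h : n < σ.length then (if σ[n] then X n else (X n)ᶜ) else ⊤) := by
    unfold pre
    refine iInf_congr fun n => ?_
    by_cases hn : n < σ.length
    · have hn' : n ∈ Finset.range σ.length := Finset.mem_range.2 hn
      simp only [hn, hn', iInf_pos, dif_pos]
    · have hn' : n ∉ Finset.range σ.length := fun h => hn (Finset.mem_range.1 h)
      simp only [hn, hn', iInf_false]
  rw [h, Ult.mem_finset_iInf]
  refine ⟨fun H i hi => ?_, fun H i hi => ?_⟩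
  · have h1 := H i (Finset.mem_range.2 hi)
    rw [dif_pos hi] at h1
    cases hσ : σ[i] with
    | true =>
      rw [hσ] at h1
      simp only [if_true] at h1
      exact (vx_iff X g i).2 h1
    | false =>
      rw [hσ] at h1
      simp only [Bool.false_eq_true, if_false] at h1
      rw [Ult.mem_compl] at h1
      rw [← Bool.not_eq_true, vx_iff]
      exact h1
  · have hi' := Finset.mem_range.1 hi
    rw [dif_pos hi']
    have h1 := H i hi'
    cases hσ : σ[i] with
    | true =>
      simp only [if_true]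
      rw [hσ] at h1
      exact (vx_iff X g i).1 h1
    | false =>
      simp only [Bool.false_eq_true, if_false]
      rw [hσ, ← Bool.not_eq_true, vx_iff] at h1
      rw [Ult.mem_compl]
      exact h1

theorem mem_eqr (x y : ℕ → A) : ∀ᶠ g in ae A, eqr x y ∈ g ↔ vx x g = vx y g := by
  unfold eqr
  filter_upwards [ae_iInf fun n => (x n ⊓ y n) ⊔ ((x n)ᶜ ⊓ (y n)ᶜ)] with g hg
  rw [hg, funext_iff]
  refine forall_congr' fun n => ?_
  rw [Ult.mem_sup, Ult.mem_inf, Ult.mem_inf, Ult.mem_compl, Ult.mem_compl]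
  rw [Bool.eq_iff_iff, vx_iff, vx_iff]
  tauto

theorem bv_ae (P : Ult A → Prop) (hP : MeasurableSet {g | P g}) :
    ∀ᶠ g in ae A, bv P ∈ g ↔ P g := by
  have h : ∃ a : A, ∀ᶠ g in ae A, a ∈ g ↔ P g := hP
  unfold bv
  rw [dif_pos h]
  exact h.choose_spec

end

theorem meas (hCm : CmStatement) : MeasStatement.{u} := by
  intro A _
  have hp : IsProbabilityMeasure cm := hCm.1
  refine ⟨fun E hE => ?_, bv_ae, fun X E hE => ?_, meas_mem, meas_cyl hCm, meas_Kc hCm,
    nl_iUnion, mem_pre hCm, mem_eqr⟩
  · exact (measurable_measure_prodMk_left hE).ennreal_toReal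
  · exact (measurable_id.prodMk (meas_vx X)) hE

end Pool.Agent.Lib.MP_a78e1f_lc.H94
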